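import Pool.Agent.Lib_helper45.UB.Decomp

/-!
Let `H` be `l`-choosable. Then `H` has a subgraph `B` of maximum degree at most
`l + 4 l (1 + l^(l+1))^2` such that for every `k` and every `k`-choosable graph `G` on the same
vertices the union of `G` and `H \ B` is `k l`-choosable.
-/

set_option autoImplicit false

open Pool.Agent.Lib_helper45.UB in
theorem Pool.Agent.Results.MP_fd001f_co.BoundedDegreeRemainder.result
    (V : Type) [Fintype V] (H : SimpleGraph V) (l : ℕ) (hl : 1 ≤ l) (hH : Choosable H l) :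
    ∃ B : SimpleGraph V, B ≤ H ∧
      (∀ v, (B.neighborSet v).ncard ≤ l + 4 * l * (1 + l ^ (l + 1)) ^ 2) ∧
      (∀ W : Finset V, W.Nonempty → ∃ y ∈ W, {x | x ∈ W ∧ (H \ B).Adj y x}.ncard < l) ∧
      ∀ (k : ℕ) (G : SimpleGraph V), Choosable G k →
        Choosable (G ⊔ (H \ B)) (k * l) ∧
        ∀ L : V → Finset ℕ, (∀ v, (L v).card = k * l) →
          ∃ f : V → ℕ, (∀ v, f v ∈ L v) ∧ (∀ u v, G.Adj u v → f u ≠ f v) ∧
            ∀ v, {u | H.Adj v u ∧ f u = f v}.ncard ≤ l + 4 * l * (1 + l ^ (l + 1)) ^ 2 := by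
  have hD : Dom H (l - 1) (l * l ^ l) := dom_of_choosable H l hl hH
  obtain ⟨B, hBH, hBd, hZ⟩ := decomp H (l - 1) (l * l ^ l) hD
  have hr : l - 1 + 1 = l := by omega
  have hb : bnd (l - 1) (l * l ^ l) = l + 4 * l * (1 + l ^ (l + 1)) ^ 2 := by
    unfold bnd
    rw [hr, pow_succ' l l]
  rw [hb] at hBd
  refine ⟨B, hBH, hBd, ?_, ?_⟩
  · intro W hW
    obtain ⟨y, hy, hyd⟩ := hZ W hW
    refine ⟨y, hy, ?_⟩
    have h1 : {x | x ∈ W ∧ (H \ B).Adj y x}.ncard = deg (H \ B) W y := by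
      unfold deg
      rw [← Set.ncard_coe_finset]
      congr 1
      ext x
      rw [Finset.mem_coe, mem_nb]
      exact Iff.rfl
    omega
  · intro k G hG
    have hU : Choosable (G ⊔ (H \ B)) (k * l) := by
      have h := choosable_sup G (H \ B) k (l - 1) hG hZ
      rwa [hr] at h
    refine ⟨hU, fun L hL => ?_⟩
    obtain ⟨f, hf, hprop⟩ := hU L hL
    refine ⟨f, hf, fun u v h => hprop u v (Or.inl h), fun v => ?_⟩
    refine le_trans (Set.ncard_le_ncard ?_ (Set.toFinite _)) (hBd v)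
    intro u hu
    rw [SimpleGraph.mem_neighborSet]
    by_contra hB
    exact hprop v u (Or.inr ((SimpleGraph.sdiff_adj _ _ _ _).mpr ⟨hu.1, hB⟩)) hu.2.symm
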