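import Pool.Agent.Lib_helper45.UB.Sharp

/-!
The union of a `k`-choosable and an `l`-choosable graph is `(k + l - 1)`-choosable after the
removal of a subgraph of bounded maximum degree, and `k + l - 1` is best possible.
-/

set_option autoImplicit false

open Pool.Agent.Lib_helper45.UB in
theorem Pool.Agent.Results.MP_fd001f_co.DefectiveUnion.result
    (k l : ℕ) (hk : 1 ≤ k) (hl : 1 ≤ l) :
    (∀ (V : Type) [Fintype V] (G H : SimpleGraph V), Choosable G k → Choosable H l →
      ∃ B : SimpleGraph V, B ≤ G ⊔ H ∧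
        (∀ v, (B.neighborSet v).ncard ≤
          (k + l - 1) + 4 * (k + l - 1) * (1 + (k ^ (k + 1) + l ^ (l + 1))) ^ 2) ∧
        Choosable ((G ⊔ H) \ B) (k + l - 1)) ∧
    (∀ D : ℕ, ∃ (V : Type) (_ : Fintype V) (G H : SimpleGraph V) (L : V → Finset ℕ),
      Choosable G k ∧ Choosable H l ∧ (∀ v, (L v).card = k + l - 2) ∧
      ∀ f : V → ℕ, (∀ v, f v ∈ L v) →
        ∃ v, D < {u | (G ⊔ H).Adj v u ∧ f u = f v}.ncard) := by
  refine ⟨?_, fun D => sharp k l D hk hl⟩
  intro V _ G H hG hH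
  have hD := dom_union G H (k - 1) (l - 1) (k * k ^ k) (l * l ^ l)
    (dom_of_choosable G k hk hG) (dom_of_choosable H l hl hH)
  obtain ⟨B, hB, hBd, hZ⟩ := decomp (G ⊔ H) _ _ hD
  have hr : (k - 1) + (l - 1) + 1 = k + l - 1 := by omega
  refine ⟨B, hB, ?_, ?_⟩
  · unfold bnd at hBd
    rw [hr, ← pow_succ' k k, ← pow_succ' l l] at hBd
    exact hBd
  · have h := choosable_of_degen _ _ hZ
    rwa [hr] at h
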