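import Mathlib
import Pool.Agent.Lib_helper23.UC.Fin

/-!
Let `G` be `k`-choosable, `H` be `l`-choosable on the same finite vertex set. From lists of about
`(1 + ε)² k l` colours one can colour the union on all vertices but a fraction
`d = exp(-ε³ k l / 8)` of them, for every weight on the vertices, and on all vertices if there are
fewer than `1 / d` different lists, or if every list meets at most `1 / (4 d)` of them.
-/

set_option autoImplicit false

theorem Pool.Agent.Results.MP_fd001f_co.NearlyProduct.result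
    (V : Type) [Fintype V] [DecidableEq V] (G H : SimpleGraph V) (k l : ℕ)
    (hk : 1 ≤ k) (hl : 1 ≤ l)
    (hG : Pool.Agent.Lib_helper21.UC.Choosable G k)
    (hH : Pool.Agent.Lib_helper21.UC.Choosable H l)
    (ε : ℝ) (hε : 0 < ε) (L : V → Finset ℕ) (d : ℝ)
    (hd : (∃ s : ℕ, (∀ v, (1 + ε) * ((k : ℝ) * ((l : ℝ) + s)) ≤ (L v).card) ∧
        d = ((l + s).choose (s + 1) : ℝ) *
          Real.exp (-(ε ^ 2 * ((s : ℝ) + 1) * k / (2 * (1 + ε))))) ∨
      (ε ≤ 1 ∧ 8 * Real.log (6 / ε) ≤ ε ^ 2 * (max k l : ℕ) ∧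
        (∀ v, (1 + ε) ^ 2 * ((k : ℝ) * l) ≤ (L v).card) ∧
        d = Real.exp (-(ε ^ 3 * (k * l) / 8)))) :
    (∀ w : V → ℝ, (∀ v, 0 ≤ w v) →
      ∃ (U : Finset V) (c : V → ℕ), (∀ v ∈ U, c v ∈ L v) ∧
        (∀ u ∈ U, ∀ v ∈ U, (G ⊔ H).Adj u v → c u ≠ c v) ∧
        ∑ v ∈ Uᶜ, w v ≤ d * ∑ v, w v) ∧
    ((d * ((Finset.univ.image L).card : ℝ) < 1 ∨
        ∃ D : ℕ, (∀ v, ((Finset.univ.image L).filter
          (fun B => (L v ∩ B).Nonempty)).card ≤ D) ∧ 4 * d * D ≤ 1) →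
      ∃ c : V → ℕ, (∀ v, c v ∈ L v) ∧ ∀ u v, (G ⊔ H).Adj u v → c u ≠ c v) := by
  rcases hd with ⟨s, hL, rfl⟩ | ⟨hε1, hlog, hL, rfl⟩
  · exact Pool.Agent.Lib_helper23.UC.general G H k l hk hl hG hH ε hε L _ s hL le_rfl
  · rcases le_total l k with h | h
    · rw [max_eq_left h] at hlog
      exact Pool.Agent.Lib_helper23.UC.special G H k l hk hl hG hH ε hε L hε1 hlog hL
    · rw [max_eq_right h] at hlog
      rw [sup_comm, mul_comm (k : ℝ) l]
      exact Pool.Agent.Lib_helper23.UC.special H G l k hl hk hH hG ε hε L hε1 hlog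
        (fun v => by rw [mul_comm (l : ℝ) k]; exact hL v)
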